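import Mathlib
import Pool.Agent.Helper11_PGL.StmtT

open PGH Polynomial
open scoped IntermediateField

universe u v w

namespace PGL.H22

theorem ff_ratFunc (k : Type u) [Field k] : FF k (RatFunc k) := by
  refine FF.of_finite (x := RatFunc.X) RatFunc.transcendental_X ?_
  rw [RatFunc.adjoin_X]
  have : (⊤ : IntermediateField k (RatFunc k)) = ⊤ := rfl
  exact FiniteDimensional.of_finrank_pos (by
    rw [IntermediateField.finrank_top]; exact one_pos)

/-- a linear form which does not vanish at finitely many nonzero vectors -/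
theorem exists_form {k : Type u} [Field k] [Infinite k] {N n : ℕ} (p : Fin N → Fin n → k)
    (hp : ∀ i, p i ≠ 0) : ∃ c : Fin n → k, ∀ i, ∑ j, c j * p i j ≠ 0 := by
  let f : Fin N → Module.Dual k (Fin n → k) := fun i => 
    ∑ j, p i j • (LinearMap.proj j : (Fin n → k) →ₗ[k] k)
  have hf : ∀ i c, f i c = ∑ j, c j * p i j := by
    intro i c
    simp only [f, LinearMap.sum_apply, LinearMap.smul_apply, LinearMap.proj_apply, smul_eq_mul]
    exact Finset.sum_congr rfl fun j _ => mul_comm _ _
  obtain ⟨c, hc⟩ := Module.Dual.exists_forall_ne_zero_of_forall_exists f (fun i => by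
    have : ∃ j, p i j ≠ 0 := by
      by_contra h; push Not at h; exact hp i (funext h)
    obtain ⟨j, hj⟩ := this
    refine ⟨Pi.single j 1, ?_⟩
    rw [hf, Finset.sum_eq_single j]
    · simpa using hj
    · intro j' _ hj'
      rw [Pi.single_eq_of_ne hj', zero_mul]
    · simp)
  exact ⟨c, fun i => by rw [← hf]; exact hc i⟩

theorem linForm_smul {k R : Type*} [Field k] [Field R] [Algebra k R] (P : Place k R) {n : ℕ}
    (c : Fin n → k) (x : Fin n → R) (u : Fin n → k) 
    (h : ∀ j, P.Ge 1 (x j - algebraMap k R (u j))) :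
    P.Ge 1 (∑ j, algebraMap k R (c j) * x j - algebraMap k R (∑ j, c j * u j)) := by
  have : ∑ j, algebraMap k R (c j) * x j - algebraMap k R (∑ j, c j * u j) = 
      ∑ j, algebraMap k R (c j) * (x j - algebraMap k R (u j)) := by
    rw [map_sum, ← Finset.sum_sub_distrib]
    refine Finset.sum_congr rfl fun j _ => ?_
    rw [map_mul]; ring
  rw [this]
  exact Place.Ge.sum fun j _ => (P.ge_const _).mul' (h j) (by norm_num)

theorem varD_affine (k : Type u) [Field k] (n : ℕ) : 
    VarD k n n 1 (MvPolynomial (Fin n) k) MvPolynomial.X (fun l => Pi.single l 1) := by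
  have hlin : ∀ l, lin (Pi.single l (1 : k)) (MvPolynomial.X : Fin n → MvPolynomial (Fin n) k) = 
      MvPolynomial.X l := by
    intro l
    rw [lin, Finset.sum_eq_single l]
    · simp
    · intro j _ hj
      rw [Pi.single_eq_of_ne hj, map_zero, zero_mul]
    · simp
  have hlin' : (fun l => lin (Pi.single l (1 : k)) 
      (MvPolynomial.X : Fin n → MvPolynomial (Fin n) k)) = MvPolynomial.X := funext hlin
  refine ⟨inferInstance, MvPolynomial.adjoin_range_X, ?_, ?_, ?_⟩
  · rw [hlin']; exact MvPolynomial.algebraicIndependent_X (Fin n) k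
  · intro j
    rw [hlin']
    have hmem : (C (MvPolynomial.X j : MvPolynomial (Fin n) k) * X : (MvPolynomial (Fin n) k)[X]) ∈ 
        Algebra.adjoin k (insert (X : (MvPolynomial (Fin n) k)[X]) (Set.range fun l => 
          C (MvPolynomial.X l : MvPolynomial (Fin n) k) * X)) := 
      Algebra.subset_adjoin (Set.mem_insert_of_mem _ ⟨j, rfl⟩)
    exact isIntegral_algebraMap (R := Algebra.adjoin k (insert (X : (MvPolynomial (Fin n) k)[X]) 
      (Set.range fun l => C (MvPolynomial.X l : MvPolynomial (Fin n) k) * X))) 
      (A := (MvPolynomial (Fin n) k)[X]) (x := ⟨_, hmem⟩)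
  · intro Ω _ _ η
    rw [Nat.cast_one, Set.encard_le_one_iff]
    intro χ χ' h h'
    apply MvPolynomial.algHom_ext
    intro l
    rw [← hlin l, h l, h' l]

theorem curve (hPT : PtStmt.{u}) (hCV : ConvStmt.{u}) : CurveStmt.{u} := by
  classical
  intro n C
  rcases Nat.eq_zero_or_pos n with hn | hn
  · subst hn
    refine ⟨1, ?_⟩
    intro k _ _ _ N p hN _
    have hff := ff_ratFunc k
    obtain ⟨P⟩ := exists_place k (RatFunc k)
    refine ⟨RatFunc k, inferInstance, inferInstance, hff, fun _ => 1, 0, {⟨0, hN⟩}, fun _ => P, 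
      fun i => algebraMap k _ (p i 0), ?_, ?_, ?_, ?_, ?_⟩
    · rw [Fintype.linearIndependent_iff]
      intro g hg i
      have hi : i = 0 := Fin.ext (by omega)
      subst hi
      simpa using hg
    · intro Q j
      simp
    · simp
    · simp
    · intro i _ j
      have : j = 0 := Fin.ext (by omega)
      subst this
      simp
  · obtain ⟨v, rfl⟩ : ∃ v, n = v + 1 := ⟨n - 1, by omega⟩
    obtain ⟨Λ, hΛ⟩ := hPT (v + 1) v 1 (C + (v + 1))
    refine ⟨max Λ (v + 2), ?_⟩
    intro k _ _ _ N p hN hgen
    have hN1 : Λ ≤ N := le_trans (le_max_left _ _) hN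
    have hN2 : v + 2 ≤ N := le_trans (le_max_right _ _) hN
    -- subsets containing given elements
    have hsub : ∀ t : Finset (Fin N), t.card ≤ v + 2 → ∃ s : Finset (Fin N), t ⊆ s ∧ 
        s.card = v + 1 + 1 := by
      intro t ht
      exact Finset.exists_superset_card_eq ht (by rw [Fintype.card_fin]; exact hN2)
    have hp0 : ∀ i, p i ≠ 0 := by
      intro i
      obtain ⟨s, hs, hcard⟩ := hsub {i} (by simp)
      exact (hgen s hcard).ne_zero (⟨i, hs (Finset.mem_singleton_self i)⟩ : s)
    obtain ⟨c, hc⟩ := exists_form p hp0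
    have hi0 : ∃ j₀, c j₀ ≠ 0 := by
      by_contra h
      push Not at h
      apply hc ⟨0, by omega⟩
      simp [h]
    obtain ⟨j₀, hj₀⟩ := hi0
    let ℓ : Fin N → k := fun i => ∑ j, c j * p i j
    have hℓ : ∀ i, ℓ i ≠ 0 := hc
    let u : Fin N → Fin (v + 1) → k := fun i t => p i (j₀.succAbove t) / ℓ i
    have hup : ∀ i t, ℓ i * u i t = p i (j₀.succAbove t) := by
      intro i t
      rw [mul_div_cancel₀ _ (hℓ i)]
    have hpj : ∀ i, p i j₀ = ℓ i * ((1 - ∑ t, c (j₀.succAbove t) * u i t) / c j₀) := by
      intro i
      have h1 : ℓ i = c j₀ * p i j₀ + ∑ t, c (j₀.succAbove t) * p i (j₀.succAbove t) := 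
        Fin.sum_univ_succAbove _ j₀
      have h2 : ∑ t, c (j₀.succAbove t) * p i (j₀.succAbove t) = 
          ℓ i * ∑ t, c (j₀.succAbove t) * u i t := by
        rw [Finset.mul_sum]
        refine Finset.sum_congr rfl fun t _ => ?_
        rw [← hup]; ring
      field_simp
      linear_combination -h1 - h2
    have huinj : Function.Injective u := by
      intro i i' h
      by_contra hne
      obtain ⟨s, hs, hcard⟩ := hsub {i, i'} (by
        rw [Finset.card_pair hne]; omega)
      have h1 := hgen s hcard
      have hprop : ℓ i' • p i = ℓ i • p i' := by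
        funext j
        revert j
        rw [Fin.forall_iff_succAbove j₀]
        constructor
        · simp only [Pi.smul_apply, smul_eq_mul]
          rw [hpj i, hpj i', h]; ring
        · intro t
          simp only [Pi.smul_apply, smul_eq_mul]
          rw [← hup i, ← hup i', h]; ring
      have hi : i ∈ s := hs (by simp)
      have hi' : i' ∈ s := hs (by simp)
      have h2 := linearIndependent_iff'.1 h1 {⟨i, hi⟩, ⟨i', hi'⟩} 
        (fun x => if x = ⟨i, hi⟩ then ℓ i' else - ℓ i) (by
          rw [Finset.sum_pair]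
          · have : (⟨i', hi'⟩ : s) ≠ ⟨i, hi⟩ := fun h => hne (congrArg Subtype.val h).symm
            simp only [if_true, if_neg this]
            rw [neg_smul, hprop, add_neg_cancel]
          · exact fun h => hne (congrArg Subtype.val h)) ⟨i, hi⟩ (by simp)
      simp only [if_true] at h2
      exact hℓ i' h2
    let S : Finset (Fin (v + 1) → k) := Finset.univ.image u
    have hScard : S.card = N := by
      rw [Finset.card_image_of_injective _ huinj, Finset.card_univ, Fintype.card_fin]
    obtain ⟨A', _, _, x', α', D', S', hcurv, hS'S, hon, hcardS'⟩ := 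
      hΛ k (MvPolynomial (Fin (v + 1)) k) MvPolynomial.X (fun l => Pi.single l 1) S 
        (varD_affine k (v + 1)) (by
          intro q _
          exact ⟨MvPolynomial.aeval q, fun j => by simp⟩) (by rw [hScard]; exact hN1)
    obtain ⟨R, _, _, hff, x, b, Q, hb0, hbD, hpol, hQ⟩ := hCV k (v + 1) D' A' x' α' S' hcurv hon
    let f : Fin (v + 1 + 1) → R := j₀.insertNth 
      ((1 - ∑ t, algebraMap k R (c (j₀.succAbove t)) * x t) / algebraMap k R (c j₀)) x
    have hf0 : f j₀ = (1 - ∑ t, algebraMap k R (c (j₀.succAbove t)) * x t) / 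
      algebraMap k R (c j₀) := Fin.insertNth_apply_same (α := fun _ => R) j₀ _ _
    have hf1 : ∀ t, f (j₀.succAbove t) = x t := fun t => 
      Fin.insertNth_apply_succAbove (α := fun _ => R) j₀ _ _ t
    have hj₀' : algebraMap k R (c j₀) ≠ 0 := by simpa using hj₀
    let I : Finset (Fin N) := Finset.univ.filter (fun i => u i ∈ S')
    have hIcard : I.card = S'.card := by
      rw [← Finset.card_image_of_injective I huinj]
      congr 1
      ext q
      rw [Finset.mem_image]
      constructor
      · rintro ⟨i, hi, rfl⟩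
        exact (Finset.mem_filter.1 hi).2
      · intro hq
        obtain ⟨i, -, rfl⟩ := Finset.mem_image.1 (hS'S hq)
        exact ⟨i, Finset.mem_filter.2 ⟨Finset.mem_univ _, hq⟩, rfl⟩
    have hval : ∀ i ∈ I, ∀ j, (Q (u i)).Ge 1 (algebraMap k R (ℓ i) * f j - 
        algebraMap k R (p i j)) := by
      intro i hi
      have hx : ∀ t, (Q (u i)).Ge 1 (x t - algebraMap k R (u i t)) := 
        hQ (u i) (Finset.mem_filter.1 hi).2
      rw [Fin.forall_iff_succAbove j₀]
      constructor
      · rw [hf0, hpj i]
        have h3 := linForm_smul (Q (u i)) (fun t => c (j₀.succAbove t)) x (u i) hx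
        have h4 : (Q (u i)).Ge 0 (algebraMap k R (-(ℓ i / c j₀))) := (Q (u i)).ge_const _
        refine (h4.mul' h3 (by norm_num : (1:ℤ) ≤ 0 + 1)) |> fun h5 => ?_
        convert h5 using 1
        rw [map_mul, map_div₀, map_neg, map_div₀, map_sub, map_one]
        field_simp
        ring
      · intro t
        rw [hf1, ← hup]
        refine (((Q (u i)).ge_const (ℓ i)).mul' (hx t) (by norm_num : (1:ℤ) ≤ 0 + 1)) |> fun h5 => ?_
        convert h5 using 1
        rw [map_mul]; ring
    have hD' : 1 ≤ D' := le_trans hb0 hbD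
    have hIbig : v + 2 ≤ I.card := by
      rw [hIcard]
      have : (C + (v + 1)) * 1 ≤ (C + (v + 1)) * D' := Nat.mul_le_mul_left _ hD'
      omega
    refine ⟨R, inferInstance, inferInstance, hff, f, b, I, fun i => Q (u i), 
      fun i => algebraMap k R (ℓ i), ?_, ?_, ?_, ?_, hval⟩
    · -- linear independence
      rw [Fintype.linearIndependent_iff]
      intro d hd
      have h6 : ∀ i ∈ I, ∑ j, d j * p i j = 0 := by
        intro i hi
        have h7 := linForm_smul (Q (u i)) d (fun j => algebraMap k R (ℓ i) * f j) (p i) (hval i hi)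
        have h8 : ∑ j, algebraMap k R (d j) * (algebraMap k R (ℓ i) * f j) = 0 := by
          have : ∑ j, algebraMap k R (d j) * (algebraMap k R (ℓ i) * f j) = 
              algebraMap k R (ℓ i) * ∑ j, d j • f j := by
            rw [Finset.mul_sum]
            refine Finset.sum_congr rfl fun j _ => ?_
            rw [Algebra.smul_def]; ring
          rw [this, hd, mul_zero]
        rw [h8, zero_sub, ← map_neg] at h7
        by_contra hne
        exact (Q (u i)).not_ge_one_const (neg_ne_zero.2 hne) h7
      obtain ⟨s, hsI, hscard⟩ := Finset.exists_subset_card_eq hIbig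
      have h9 := hgen s hscard
      -- `p i`, `i ∈ s`, is a basis
      have h10 : Submodule.span k (Set.range (fun i : s => p i)) = ⊤ := by
        apply h9.span_eq_top_of_card_eq_finrank'
        simp [hscard]
      let F : (Fin (v + 1 + 1) → k) →ₗ[k] k := ∑ j, d j • LinearMap.proj j
      have hF : ∀ w, F w = ∑ j, d j * w j := by
        intro w
        simp only [F, LinearMap.sum_apply, LinearMap.smul_apply, LinearMap.proj_apply, smul_eq_mul]
      have h11 : F = 0 := by
        apply LinearMap.ext_on_range h10
        intro i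
        rw [hF, h6 i (hsI i.2)]; rfl
      intro j
      have h12 := LinearMap.congr_fun h11 (Pi.single j 1)
      rw [hF, Finset.sum_eq_single j] at h12
      · simpa using h12
      · intro j' _ hj'
        rw [Pi.single_eq_of_ne hj', mul_zero]
      · simp
    · -- poles
      intro P
      rw [Fin.forall_iff_succAbove j₀]
      have hone : P.Ge (-((b.count P : ℕ) : ℤ)) (1 : R) := P.ge_one.mono (by omega)
      constructor
      · rw [hf0, div_eq_mul_inv, ← map_inv₀]
        refine Place.Ge.mul' (m := -((b.count P : ℕ) : ℤ)) (n := 0) ?_ (P.ge_const _) (by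
          rw [add_zero])
        refine hone.sub (Place.Ge.sum fun t _ => ?_)
        refine (P.ge_const _).mul' (hpol P t) (by rw [zero_add])
      · intro t
        rw [hf1]
        exact hpol P t
    · -- many points
      rw [hIcard]
      calc C * Multiset.card b ≤ (C + (v + 1)) * D' := Nat.mul_le_mul (by omega) hbD
        _ < _ := hcardS'
    · -- distinct places
      intro i hi i' hi' h
      apply huinj
      funext t
      have hx : ∀ t, (Q (u i)).Ge 1 (x t - algebraMap k R (u i t)) := 
        hQ (u i) (Finset.mem_filter.1 hi).2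
      have hx' : ∀ t, (Q (u i')).Ge 1 (x t - algebraMap k R (u i' t)) := 
        hQ (u i') (Finset.mem_filter.1 hi').2
      have h' : Q (u i) = Q (u i') := h
      rw [h'] at hx
      exact (Q (u i')).res_unique (hx t) (hx' t)

end PGL.H22
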