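import Mathlib
import Pool.Agent.Helper11_PGL.StmtK

open scoped TensorProduct
open PGH

universe u v w

namespace PGL.H22

section

variable {k R : Type*} [Field k] [Field R] [Algebra k R]

/-- the residue functional -/
noncomputable def resL (P : Place k R) (t : R) (W : Submodule k R)
    (h : ∀ w ∈ W, P.Ge 0 (t * w)) : W →ₗ[k] k where
  toFun w := P.res (t * w)
  map_add' a b := by
    apply P.res_eq
    · rw [Submodule.coe_add, mul_add]; exact (h a a.2).add (h b b.2)
    · have := (P.res_spec (h a a.2)).add (P.res_spec (h b b.2))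
      convert this using 1
      rw [Submodule.coe_add, map_add]; ring
  map_smul' c a := by
    apply P.res_eq
    · rw [Submodule.coe_smul, mul_smul_comm]; exact (h a a.2).smul c
    · have := (P.res_spec (h a a.2)).smul c
      convert this using 1
      rw [Submodule.coe_smul, RingHom.id_apply, smul_eq_mul, map_mul, Algebra.smul_def,
        Algebra.smul_def]
      ring

theorem resL_eq_zero (P : Place k R) (t : R) (W : Submodule k R) (h) (w : W) :
    resL P t W h w = 0 ↔ P.Ge 1 (t * w) := by
  constructor
  · intro h0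
    have := P.res_spec (h w w.2)
    change P.res (t * w) = 0 at h0
    rwa [h0, map_zero, sub_zero] at this
  · intro h1
    exact P.res_eq (h w w.2) (by rwa [map_zero, sub_zero])

theorem lam_ord {l : ℕ} {g : Fin (l + 1) → R} {a : Multiset (Place k R)} (ha : ExactPole g a)
    (P : Place k R) (t : R) (p : Fin (l + 1) → k)
    (h : ∀ s, P.Ge 1 (t * g s - algebraMap k R (p s))) (hp : p ≠ 0) :
    t ≠ 0 ∧ P.ord t = (open Classical in ((a.count P : ℕ) : ℤ)) := by
  classical
  have hex : ∃ s, p s ≠ 0 := by
    by_contra hc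
    push Not at hc
    exact hp (funext hc)
  obtain ⟨s, hs⟩ := hex
  have h0 : t * g s ≠ 0 := by
    intro h0
    have := h s
    rw [h0, zero_sub] at this
    exact P.not_ge_one_const hs (by simpa using this.neg)
  have ht : t ≠ 0 := left_ne_zero_of_mul h0
  have hgs : g s ≠ 0 := right_ne_zero_of_mul h0
  have hord : P.ord (t * g s) = 0 := by
    have h1 : P.Ge 0 (t * g s) := P.ge_zero_of_res (h s)
    rw [P.ge_iff h0] at h1
    by_contra hne
    have h2 : P.Ge 1 (t * g s) := (P.ge_iff h0).2 (by omega)
    have h3 := h2.sub (h s)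
    rw [sub_sub_cancel] at h3
    exact P.not_ge_one_const hs h3
  refine ⟨ht, ?_⟩
  rw [P.ord_mul ht hgs] at hord
  have h1 := ha.1 P s
  rw [P.ge_iff hgs] at h1
  obtain ⟨s', hs'⟩ := ha.2 P
  have hgs' : g s' ≠ 0 := by
    rintro h0
    rw [h0] at hs'
    exact hs' (P.ge_zero _)
  rw [P.ge_iff hgs'] at hs'
  have h2 := P.ge_zero_of_res (h s')
  rw [P.ge_iff (mul_ne_zero ht hgs'), P.ord_mul ht hgs'] at h2
  push Not at hs'
  have e1 : ((Multiset.count P a : ℕ) : ℤ) = (open Classical in ((a.count P : ℕ) : ℤ)) := by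
    congr!
  rw [← e1]
  have e2 : (open Classical in ((a.count P : ℕ) : ℤ)) = ((Multiset.count P a : ℕ) : ℤ) := e1.symm
  omega

end

theorem setD (hR : RiemStmt.{u}) : SetDStmt.{u} := by
  classical
  intro k R _ _ _ _ _ _ l N g a Q lam p ha hQ hlam hp
  obtain ⟨m₀, hm₀⟩ := hR k R
  set D : Multiset (Place k R) := m₀ + ∑ i, {Q i} with hD
  have hcount : ∀ i, (∑ j, ({Q j} : Multiset (Place k R))).count (Q i) = 1 := by
    intro i
    rw [Multiset.count_sum']
    rw [Finset.sum_eq_single i]
    · simp
    · intro j _ hj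
      rw [Multiset.count_singleton, if_neg]
      exact fun h => hj (hQ h.symm)
    · simp
  have hcard : Multiset.card (∑ j, ({Q j} : Multiset (Place k R))) = N := by
    rw [Multiset.card_sum]; simp
  have hlo := fun i => lam_ord ha (Q i) (lam i) (p i) (hlam i) (hp i)
  choose π hπ0 hπ using fun i => (Q i).exists_unif
  let d : Fin N → ℕ := fun i => D.count (Q i)
  have hd : ∀ i, d i = m₀.count (Q i) + 1 := by
    intro i
    change D.count (Q i) = _
    rw [hD, Multiset.count_add, hcount]
  have hordt : ∀ i, (Q i).ord (π i ^ d i * lam i) = d i + a.count (Q i) := by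
    intro i
    rw [(Q i).ord_mul (pow_ne_zero _ (hπ0 i)) (hlo i).1, (Q i).ord_pow, hπ, (hlo i).2]
    ring
  have hordt2 : ∀ i, (Q i).ord (π i ^ d i * lam i * lam i) = 
      d i + a.count (Q i) + a.count (Q i) := by
    intro i
    rw [(Q i).ord_mul (mul_ne_zero (pow_ne_zero _ (hπ0 i)) (hlo i).1) (hlo i).1, hordt,
      (hlo i).2]
  have ht0 : ∀ i, π i ^ d i * lam i ≠ 0 := fun i => 
    mul_ne_zero (pow_ne_zero _ (hπ0 i)) (hlo i).1
  have ht20 : ∀ i, π i ^ d i * lam i * lam i ≠ 0 := fun i => mul_ne_zero (ht0 i) (hlo i).1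
  have hge' : ∀ i, ∀ w ∈ Lm (D + a), (Q i).Ge 0 (π i ^ d i * lam i * w) := by
    intro i w hw
    have h1 := hw (Q i)
    have h2 : (Q i).Ge (d i + a.count (Q i)) (π i ^ d i * lam i) := by
      rw [(Q i).ge_iff (ht0 i), hordt]
    refine h2.mul' h1 ?_
    simp only [Multiset.count_add]
    push_cast
    change _ ≤ ((D.count (Q i) : ℕ) : ℤ) + _ + _
    omega
  have hge : ∀ i, ∀ w ∈ Lm (D + a + a), (Q i).Ge 0 (π i ^ d i * lam i * lam i * w) := by
    intro i w hw
    have h1 := hw (Q i)
    have h2 : (Q i).Ge (d i + a.count (Q i) + a.count (Q i)) (π i ^ d i * lam i * lam i) := by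
      rw [(Q i).ge_iff (ht20 i), hordt2]
    refine h2.mul' h1 ?_
    simp only [Multiset.count_add]
    push_cast
    change _ ≤ ((D.count (Q i) : ℕ) : ℤ) + _ + _ + _
    omega
  refine ⟨D, fun i => resL (Q i) _ _ (hge i), fun i => resL (Q i) _ _ (hge' i), ?_, ?_, ?_, ?_⟩
  · rw [hD, add_assoc, hm₀, hm₀, Multiset.card_add, add_assoc]
  · rw [hD, add_assoc, add_assoc, hm₀, hm₀, Multiset.card_add, Multiset.card_add]
    omega
  · -- independence
    have hex : ∀ i, ∃ w : Lm (D + a + a), resL (Q i) _ _ (hge i) w ≠ 0 ∧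
        ∀ j, j ≠ i → resL (Q j) _ _ (hge j) w = 0 := by
      intro i
      have h1 := hm₀ ({Q i} + a + a)
      have h2 := hm₀ (a + a)
      have hnot : ¬ (Lm (m₀ + ({Q i} + a + a)) ≤ Lm (m₀ + (a + a))) := by
        intro hle
        have : FiniteDimensional k (Lm (m₀ + (a + a))) := LD_finite _
        have h3 := Submodule.finrank_mono hle
        rw [h1, h2] at h3
        simp only [Multiset.card_add, Multiset.card_singleton] at h3
        omega
      rw [SetLike.not_le_iff_exists] at hnot
      obtain ⟨w, hw1, hw2⟩ := hnot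
      have hwD : w ∈ Lm (D + a + a) := by
        intro P
        refine (hw1 P).mono ?_
        have h4 : ({Q i} : Multiset (Place k R)).count P ≤ (∑ j, ({Q j} : Multiset (Place k R))).count P := by
          rw [Multiset.count_sum']
          exact Finset.single_le_sum (f := fun j => ({Q j} : Multiset (Place k R)).count P) 
            (fun _ _ => Nat.zero_le _) (Finset.mem_univ i)
        simp only [hD, Multiset.count_add]
        push_cast
        have h5 : ((({Q i} : Multiset (Place k R)).count P : ℕ) : ℤ) ≤ 
          (((∑ j, ({Q j} : Multiset (Place k R))).count P : ℕ) : ℤ) := by exact_mod_cast h4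
        omega
      have hw2' : ¬ (Q i).Ge (-((m₀.count (Q i) : ℕ) : ℤ) - a.count (Q i) - a.count (Q i)) w := by
        intro h5
        apply hw2
        intro P
        by_cases hP : P = Q i
        · rw [hP]
          refine h5.mono ?_
          simp only [Multiset.count_add]; push_cast; omega
        · refine (hw1 P).mono ?_
          simp only [Multiset.count_add, Multiset.count_singleton, if_neg hP]
          push_cast; omega
      refine ⟨⟨w, hwD⟩, ?_, ?_⟩
      · rw [Ne, resL_eq_zero]
        intro h6
        apply hw2'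
        have hw0 : w ≠ 0 := by
          rintro rfl
          exact hw2' ((Q i).ge_zero _)
        rw [(Q i).ge_iff (mul_ne_zero (ht20 i) hw0), (Q i).ord_mul (ht20 i) hw0, hordt2, hd] at h6
        rw [(Q i).ge_iff hw0]
        push_cast at h6
        omega
      · intro j hj
        rw [resL_eq_zero]
        have h7 := hw1 (Q j)
        have h8 : (Q j).Ge (d j + a.count (Q j) + a.count (Q j)) (π j ^ d j * lam j * lam j) := by
          rw [(Q j).ge_iff (ht20 j), hordt2]
        refine h8.mul' h7 ?_
        have h9 : Q j ≠ Q i := fun h => hj (hQ h)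
        simp only [Multiset.count_add, Multiset.count_singleton, if_neg h9, hd]
        push_cast
        omega
    choose w hw1 hw2 using hex
    rw [Fintype.linearIndependent_iff]
    intro c hc i
    have h1 := congrArg (fun f : Lm (D + a + a) →ₗ[k] k => f (w i)) hc
    simp only [LinearMap.sum_apply, LinearMap.smul_apply, LinearMap.zero_apply, smul_eq_mul] at h1
    rw [Finset.sum_eq_single i] at h1
    · exact (mul_eq_zero.1 h1).resolve_right (hw1 i)
    · intro j _ hj
      rw [hw2 i j hj, mul_zero]
    · simp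
  · intro i s w w' hww'
    change (Q i).res _ = p i s * (Q i).res _
    apply (Q i).res_eq (hge i _ w'.2)
    have h1 := (Q i).res_spec (hge' i _ w.2)
    have h2 := hlam i s
    have h3 : (Q i).Ge 0 (lam i * g s) := (Q i).ge_zero_of_res h2
    have h4 : (Q i).Ge 1 ((lam i * g s) * (π i ^ d i * lam i * (w : R) - 
        algebraMap k R ((Q i).res (π i ^ d i * lam i * (w : R))))) := h3.mul' h1 (by norm_num)
    have h5 : (Q i).Ge 1 ((lam i * g s - algebraMap k R (p i s)) * 
        algebraMap k R ((Q i).res (π i ^ d i * lam i * (w : R)))) := 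
      h2.mul' ((Q i).ge_const _) (by norm_num)
    have h6 := h4.add h5
    convert h6 using 1
    rw [hww', map_mul]
    ring

end PGL.H22
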