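import Mathlib
import Pool.Agent.Helper11_PGL.StmtK

open scoped TensorProduct
open PGH

universe u v w

namespace PGL.H22

section

variable {k R : Type*} [Field k] [Field R] [Algebra k R]

open Classical in
/-- multiplication by an element with poles bounded by `a` -/
noncomputable def mulL (D a : Multiset (Place k R)) (g : R)
    (hg : ∀ P : Place k R, P.Ge (-((a.count P : ℕ) : ℤ)) g) : Lm D →ₗ[k] Lm (D + a) :=
  LinearMap.codRestrict (Lm (D + a)) ((LinearMap.mulLeft k g) ∘ₗ (Lm D).subtype) (by
    intro w P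
    have h1 := (w.2 : (w : R) ∈ Lm D) P
    have h2 := hg P
    refine h2.mul' h1 ?_
    simp only [Multiset.count_add]
    push_cast
    omega)

@[simp] theorem coe_mulL (D a : Multiset (Place k R)) (g : R) (hg) (w : Lm D) :
    ((mulL D a g hg w : Lm (D + a)) : R) = g * w := rfl

end

theorem setup (hD : SetDStmt.{u}) (hK : SetKStmt.{u}) : SetupStmt.{u} := by
  intro k R _ _ _ _ _ _ l N g a Q lam p hg ha hQ hlam hp
  obtain ⟨D, e, e', hd1, hd2, he, hrel⟩ := hD k R l N g a Q lam p ha hQ hlam hp
  have : FiniteDimensional k (Lm D) := LD_finite D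
  have : FiniteDimensional k (Lm (D + a)) := LD_finite (D + a)
  have : FiniteDimensional k (Lm (D + a + a)) := LD_finite (D + a + a)
  set H := Module.finrank k (Lm D) with hH
  set δ := Multiset.card a with hδ
  let b0 : Module.Basis (Fin H) k (Lm D) := Module.finBasisOfFinrankEq k (Lm D) rfl
  let b1 : Module.Basis (Fin (H + δ)) k (Lm (D + a)) := Module.finBasisOfFinrankEq k _ hd1
  let b2 : Module.Basis (Fin (H + δ + δ)) k (Lm (D + a + a)) := 
    Module.finBasisOfFinrankEq k _ hd2
  let μ0 : Fin (l + 1) → Lm D →ₗ[k] Lm (D + a) := fun s => mulL D a (g s) (fun P => ha.1 P s)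
  let μ1 : Fin (l + 1) → Lm (D + a) →ₗ[k] Lm (D + a + a) := 
    fun s => mulL (D + a) a (g s) (fun P => ha.1 P s)
  let M0 : Fin (l + 1) → Matrix (Fin (H + δ)) (Fin H) k := fun s => LinearMap.toMatrix b0 b1 (μ0 s)
  let M1 : Fin (l + 1) → Matrix (Fin (H + δ + δ)) (Fin (H + δ)) k := 
    fun s => LinearMap.toMatrix b1 b2 (μ1 s)
  have hcomm : ∀ s t, M1 s * M0 t = M1 t * M0 s := by
    intro s t
    change LinearMap.toMatrix b1 b2 (μ1 s) * LinearMap.toMatrix b0 b1 (μ0 t) = 
      LinearMap.toMatrix b1 b2 (μ1 t) * LinearMap.toMatrix b0 b1 (μ0 s)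
    rw [← LinearMap.toMatrix_comp, ← LinearMap.toMatrix_comp]
    congr 1
    ext w
    change g s * (g t * (w : R)) = g t * (g s * (w : R))
    ring
  have hinj : ∀ c : Fin (l + 1) → k, c ≠ 0 → Function.Injective (∑ s, c s • M0 s).mulVec := by
    intro c hc
    have h1 : ∑ s, c s • M0 s = LinearMap.toMatrix b0 b1 (∑ s, c s • μ0 s) := by
      simp only [map_sum, map_smul, M0]
    have hc' : ∑ s, c s • g s ≠ 0 := by
      intro h0
      apply hc
      funext s
      exact (Fintype.linearIndependent_iff.1 hg) c h0 s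
    have h2 : Function.Injective (⇑(∑ s, c s • μ0 s : Lm D →ₗ[k] Lm (D + a))) := by
      rw [injective_iff_map_eq_zero]
      intro w hw
      have h3 : (∑ s, c s • g s) * (w : R) = 0 := by
        have h5 : (((∑ s, c s • μ0 s : Lm D →ₗ[k] Lm (D + a)) w : Lm (D + a)) : R) = 
            (∑ s, c s • g s) * (w : R) := by
          rw [LinearMap.sum_apply, Submodule.coe_sum, Finset.sum_mul]
          refine Finset.sum_congr rfl fun s _ => ?_
          rw [LinearMap.smul_apply, Submodule.coe_smul, smul_mul_assoc]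
          rfl
        rw [← h5, hw]; rfl
      exact Subtype.ext ((mul_eq_zero.1 h3).resolve_left hc')
    have h3 : (∑ s, c s • M0 s).mulVec = Matrix.toLin' (∑ s, c s • M0 s) := by
      ext x; rfl
    rw [h1]
    intro x x' hx
    have h4 : ∀ x : Fin H → k, (LinearMap.toMatrix b0 b1 (∑ s, c s • μ0 s)).mulVec x =
        b1.equivFun ((∑ s, c s • μ0 s) (b0.equivFun.symm x)) := by
      intro x
      have := LinearMap.toMatrix_mulVec_repr b0 b1 (∑ s, c s • μ0 s) (b0.equivFun.symm x)
      rw [← Module.Basis.equivFun_apply b0, LinearEquiv.apply_symm_apply] at this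
      rw [this]; rfl
    change (LinearMap.toMatrix b0 b1 (∑ s, c s • μ0 s)).mulVec x = 
      (LinearMap.toMatrix b0 b1 (∑ s, c s • μ0 s)).mulVec x' at hx
    rw [h4, h4] at hx
    exact b0.equivFun.symm.injective (h2 (b1.equivFun.injective hx))
  have hindep : LinearIndependent k (fun (i : Fin N) (r : Fin (H + δ + δ)) => e i (b2 r)) := by
    let T : (Lm (D + a + a) →ₗ[k] k) →ₗ[k] (Fin (H + δ + δ) → k) :=
      { toFun := fun f r => f (b2 r)
        map_add' := fun _ _ => rfl
        map_smul' := fun _ _ => rfl }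
    have hT : LinearMap.ker T = ⊥ := by
      rw [LinearMap.ker_eq_bot']
      intro f hf
      apply b2.ext
      intro r
      exact congrFun hf r
    exact he.map' T hT
  have hsumM1 : ∀ s j, ∑ r, M1 s r j • b2 r = μ1 s (b1 j) := by
    intro s j
    have := b2.sum_repr (μ1 s (b1 j))
    conv_rhs => rw [← this]
    refine Finset.sum_congr rfl fun r _ => ?_
    congr 1
    exact LinearMap.toMatrix_apply b1 b2 (μ1 s) r j
  have hrel' : ∀ i s, Matrix.vecMul (fun r => e i (b2 r)) (M1 s) = p i s • (fun j => e' i (b1 j)) := by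
    intro i s
    funext j
    change ∑ r, e i (b2 r) * M1 s r j = p i s * e' i (b1 j)
    rw [← hrel i s (b1 j) (μ1 s (b1 j)) rfl, ← hsumM1 s j, map_sum]
    refine Finset.sum_congr rfl fun r _ => ?_
    rw [map_smul, smul_eq_mul, mul_comm]
  refine ⟨{ H := H, M0 := M0, M1 := M1, e := fun i r => e i (b2 r), e' := fun i j => e' i (b1 j),
            p := p, comm := hcomm, indep := hindep, rel := hrel', inj := hinj }, rfl, ?_⟩
  intro E _ _ y z hy hcop w hwy hwz
  -- the functional
  let fw : Lm (D + a + a) →ₗ[k] E := b2.constr k w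
  have hfw : ∀ r, fw (b2 r) = w r := fun r => b2.constr_basis k w r
  let T : E ⊗[k] Lm (D + a + a) →ₗ[k] E := 
    TensorProduct.lift ((LinearMap.mul k E).compl₂ fw)
  have hT : ∀ (x : E) (u : Lm (D + a + a)), T (x ⊗ₜ u) = x * fw u := fun _ _ => rfl
  have hincl : Function.Injective (TensorProduct.map (LinearMap.id : E →ₗ[k] E) 
      (Lm (D + a + a)).subtype) := 
    Module.Flat.lTensor_preserves_injective_linearMap (M := E) (Lm (D + a + a)).subtype
      (Submodule.subtype_injective _)
  -- multiplication by `yT` at the level of the spaces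
  let Yv : (Fin (l + 1) → E) → (E ⊗[k] Lm (D + a) →ₗ[k] E ⊗[k] Lm (D + a + a)) := 
    fun v => ∑ s, TensorProduct.map (LinearMap.mulLeft k (v s)) (μ1 s)
  have hY : ∀ (v : Fin (l + 1) → E) (s' : E ⊗[k] Lm (D + a)), 
      yT k v g * TensorProduct.map (LinearMap.id : E →ₗ[k] E) (Lm (D + a)).subtype s' =
        TensorProduct.map (LinearMap.id : E →ₗ[k] E) (Lm (D + a + a)).subtype (Yv v s') := by
    intro v s'
    induction s' using TensorProduct.induction_on with
    | zero => simp
    | add a b ha hb => rw [map_add, mul_add, ha, hb, map_add, map_add]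
    | tmul x u =>
      rw [TensorProduct.map_tmul, yT, Finset.sum_mul, LinearMap.sum_apply, map_sum]
      refine Finset.sum_congr rfl fun s _ => ?_
      rw [TensorProduct.map_tmul, TensorProduct.map_tmul, Algebra.TensorProduct.tmul_mul_tmul]
      rfl
  have hTY : ∀ (v : Fin (l + 1) → E), Matrix.vecMul w (mulMat M1 v) = 0 → ∀ s', T (Yv v s') = 0 := by
    intro v hv s'
    induction s' using TensorProduct.induction_on with
    | zero => simp
    | add a b ha hb => rw [map_add, map_add, ha, hb, add_zero]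
    | tmul x u =>
      have h1 : ∀ j, T (Yv v (x ⊗ₜ b1 j)) = 0 := by
        intro j
        rw [LinearMap.sum_apply, map_sum]
        have h2 := congrFun hv j
        simp only [Matrix.vecMul, dotProduct, mulMat, Matrix.sum_apply, Matrix.smul_apply,
          Matrix.map_apply, Pi.zero_apply, smul_eq_mul] at h2
        have h3 : ∀ s, T (TensorProduct.map (LinearMap.mulLeft k (v s)) (μ1 s) (x ⊗ₜ b1 j)) = 
            x * ∑ r, w r * (v s * algebraMap k E (M1 s r j)) := by
          intro s
          rw [TensorProduct.map_tmul, hT, LinearMap.mulLeft_apply, ← hsumM1 s j, map_sum,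
            Finset.mul_sum, Finset.mul_sum]
          refine Finset.sum_congr rfl fun r _ => ?_
          rw [map_smul, hfw, Algebra.smul_def]
          ring
        simp only [h3]
        rw [← Finset.mul_sum, Finset.sum_comm]
        simp only [Finset.mul_sum] at h2
        rw [h2, mul_zero]
      rw [← b1.sum_repr u, TensorProduct.tmul_sum, map_sum, map_sum]
      refine Finset.sum_eq_zero fun j _ => ?_
      rw [TensorProduct.tmul_smul, map_smul, map_smul, h1, smul_zero]
  have hT0 : ∀ t' : E ⊗[k] Lm (D + a + a), T t' = 0 := by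
    intro t'
    obtain ⟨s₁, ⟨s₁', rfl⟩, s₂, ⟨s₂', rfl⟩, hs⟩ := hK k E R l g a D y z ha hy hcop hd1 hd2
      (TensorProduct.map (LinearMap.id : E →ₗ[k] E) (Lm (D + a + a)).subtype t') ⟨t', rfl⟩
    rw [hY, hY, ← map_add] at hs
    rw [← hincl hs, map_add, hTY y hwy, hTY z hwz, add_zero]
  funext r
  have := hT0 (1 ⊗ₜ b2 r)
  rw [hT, hfw, one_mul] at this
  exact this

end PGL.H22
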