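import Mathlib
import Pool.Agent.Helper11_PGL.StmtK
import Pool.Agent.Helper22_PGL.Setup

open scoped TensorProduct
open PGH

universe u v w

namespace PGL.H22

section

variable {k R : Type*} [Field k] [Field R] [Algebra k R] (E : Type*) [Field E] [Algebra k E]

/-- the inclusion of `E ⊗ W` in `E ⊗ R` -/
noncomputable def inclE (W : Submodule k R) : E ⊗[k] W →ₗ[E] E ⊗[k] R :=
  (W.subtype).baseChange E

theorem inclE_injective (W : Submodule k R) : Function.Injective (inclE E W) :=
  Module.Flat.lTensor_preserves_injective_linearMap (M := E) W.subtype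
      (Submodule.subtype_injective _)

theorem inclE_eq (W : Submodule k R) (t : E ⊗[k] W) : 
    inclE E W t = TensorProduct.map (LinearMap.id : E →ₗ[k] E) W.subtype t := rfl

theorem mem_tens_iff (W : Submodule k R) (t : E ⊗[k] R) : t ∈ tens k E W ↔ ∃ t', inclE E W t' = t :=
  Iff.rfl

variable {E}

/-- multiplication by `yT v g` -/
noncomputable def mulY {l : ℕ} (D a : Multiset (Place k R)) (g : Fin (l + 1) → R)
    (hg : ∀ s, ∀ P : Place k R, P.Ge (open Classical in (-((a.count P : ℕ) : ℤ))) (g s)) 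
    (v : Fin (l + 1) → E) : 
    E ⊗[k] Lm D →ₗ[E] E ⊗[k] Lm (D + a) :=
  ∑ s, v s • (mulL D a (g s) (by intro P; convert hg s P)).baseChange E

theorem inclE_mulY {l : ℕ} (D a : Multiset (Place k R)) (g : Fin (l + 1) → R) (hg)
    (v : Fin (l + 1) → E) (t : E ⊗[k] Lm D) : 
    inclE E (Lm (D + a)) (mulY D a g hg v t) = yT k v g * inclE E (Lm D) t := by
  induction t using TensorProduct.induction_on with
  | zero => simp
  | add a b ha hb => rw [map_add, map_add, ha, hb, map_add, mul_add]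
  | tmul x u =>
    rw [inclE, inclE, LinearMap.baseChange_tmul, yT, Finset.sum_mul, mulY, LinearMap.sum_apply,
      map_sum]
    refine Finset.sum_congr rfl fun s _ => ?_
    rw [LinearMap.smul_apply, LinearMap.baseChange_tmul, map_smul, LinearMap.baseChange_tmul,
      Algebra.TensorProduct.tmul_mul_tmul, TensorProduct.smul_tmul']
    rfl

end

theorem setK (hG : GaussStmt.{u}) : SetKStmt.{u} := by
  intro k E R _ _ _ _ _ _ _ _ l g a D y z ha hy hcop hd1 hd2 t ht
  have hf0 : FiniteDimensional k (Lm D) := LD_finite D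
  have hf1 : FiniteDimensional k (Lm (D + a)) := LD_finite (D + a)
  have hf2 : FiniteDimensional k (Lm (D + a + a)) := LD_finite (D + a + a)
  have hg : ∀ s, ∀ P : Place k R, P.Ge (open Classical in (-((a.count P : ℕ) : ℤ))) (g s) := 
    fun s P => ha.1 P s
  let Y0 := mulY (E := E) D a g hg y
  let Z0 := mulY (E := E) D a g hg z
  let Y1 := mulY (E := E) (D + a) a g hg y
  let Z1 := mulY (E := E) (D + a) a g hg z
  let Φ : (E ⊗[k] Lm (D + a)) × (E ⊗[k] Lm (D + a)) →ₗ[E] E ⊗[k] Lm (D + a + a) := 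
    Y1.coprod Z1
  let Ψ : (E ⊗[k] Lm D) →ₗ[E] (E ⊗[k] Lm (D + a)) × (E ⊗[k] Lm (D + a)) := Z0.prod (-Y0)
  obtain ⟨α, β, hαβ⟩ := hcop
  have hker : LinearMap.ker Φ ≤ LinearMap.range Ψ := by
    rintro ⟨s₁, s₂⟩ hs
    have h1 : yT k y g * inclE E _ s₁ + yT k z g * inclE E _ s₂ = 0 := by
      rw [← inclE_mulY (D + a) a g hg, ← inclE_mulY (D + a) a g hg, ← map_add]
      have : Y1 s₁ + Z1 s₂ = 0 := hs
      change inclE E _ (Y1 s₁ + Z1 s₂) = 0
      rw [this, map_zero]
    set S₁ := inclE E _ s₁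
    set S₂ := inclE E _ s₂
    set T : E ⊗[k] R := α * (-S₂) + β * S₁ with hT
    have hZT : yT k z g * T = S₁ := by
      rw [hT]
      linear_combination α * h1 * (-1) + S₁ * hαβ 
    have hYT : yT k y g * T = - S₂ := by
      rw [hT]
      linear_combination β * h1 - S₂ * hαβ
    have h2 : T ∈ tens k E (Lm D) := by
      apply hG k E R l g y a D ha hy T
      rw [hYT]
      exact ⟨-s₂, by rw [map_neg]; rfl⟩
    obtain ⟨t₀, ht₀⟩ := h2
    have ht₀' : inclE E (Lm D) t₀ = T := ht₀
    refine ⟨t₀, ?_⟩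
    apply Prod.ext
    · apply inclE_injective E
      change inclE E _ (mulY D a g hg z t₀) = inclE E _ s₁
      rw [inclE_mulY, ht₀', hZT]
    · apply inclE_injective E
      change inclE E _ (- mulY D a g hg y t₀) = inclE E _ s₂
      rw [map_neg, inclE_mulY, ht₀', hYT, neg_neg]
  have h3 : Module.finrank E (LinearMap.ker Φ) ≤ Module.finrank k (Lm D) := by
    calc Module.finrank E (LinearMap.ker Φ) ≤ Module.finrank E (LinearMap.range Ψ) := 
          Submodule.finrank_mono hker
      _ ≤ Module.finrank E (E ⊗[k] Lm D) := LinearMap.finrank_range_le Ψ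
      _ = _ := Module.finrank_baseChange
  have h4 := LinearMap.finrank_range_add_finrank_ker Φ
  have h5 : Module.finrank E ((E ⊗[k] Lm (D + a)) × (E ⊗[k] Lm (D + a))) = 
      Module.finrank k (Lm (D + a)) + Module.finrank k (Lm (D + a)) := by
    rw [Module.finrank_prod, Module.finrank_baseChange]
  have h6 : Module.finrank E (E ⊗[k] Lm (D + a + a)) = Module.finrank k (Lm (D + a + a)) := 
    Module.finrank_baseChange
  have h7 : LinearMap.range Φ = ⊤ := by
    apply Submodule.eq_top_of_finrank_eq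
    have h8 := Submodule.finrank_le (LinearMap.range Φ)
    omega
  obtain ⟨t', rfl⟩ := ht
  obtain ⟨⟨s₁, s₂⟩, hs⟩ := LinearMap.range_eq_top.1 h7 t'
  refine ⟨inclE E _ s₁, ⟨s₁, rfl⟩, inclE E _ s₂, ⟨s₂, rfl⟩, ?_⟩
  rw [← inclE_mulY (D + a) a g hg, ← inclE_mulY (D + a) a g hg, ← map_add, ← hs]
  rfl

end PGL.H22
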